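import Mathlib

set_option autoImplicit false

namespace Pool.Agent.Results.MP_130315_lc.NoCountable

open Function

/-- signatures: predicate and function symbols with arities, and rigidity marks -/
structure Sig where
  P : Type
  pa : P → ℕ
  F : Type
  fa : F → ℕ
  rigid : F → Prop

inductive Term (σ : Sig) : Type
  | var : ℕ → Term σ
  | app (f : σ.F) : (Fin (σ.fa f) → Term σ) → Term σ

inductive Form (σ : Sig) : Type
  | atom (p : σ.P) : (Fin (σ.pa p) → Term σ) → Form σ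
  | eq : Term σ → Term σ → Form σ
  | bot : Form σ
  | and : Form σ → Form σ → Form σ
  | idis : Form σ → Form σ → Form σ
  | imp : Form σ → Form σ → Form σ
  | all : ℕ → Form σ → Form σ
  | iex : ℕ → Form σ → Form σ

/-- relational information models -/
structure Model (σ : Sig) where
  W : Type
  D : Type
  neW : Nonempty W
  neD : Nonempty D
  P : W → ∀ p : σ.P, (Fin (σ.pa p) → D) → Prop
  F : W → ∀ f : σ.F, (Fin (σ.fa f) → D) → D
  rig : ∀ f, σ.rigid f → ∀ w w', F w f = F w' f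
  sim : W → D → D → Prop
  equiv : ∀ w, Equivalence (sim w)
  congP : ∀ w p a b, (∀ i, sim w (a i) (b i)) → (P w p a ↔ P w p b)
  congF : ∀ w f a b, (∀ i, sim w (a i) (b i)) → sim w (F w f a) (F w f b)

variable {σ : Sig}

def Term.val (M : Model σ) (w : M.W) (g : ℕ → M.D) : Term σ → M.D
  | .var n => g n
  | .app f ts => M.F w f fun i => (ts i).val M w g

/-- the support relation -/
def Supp (M : Model σ) : Form σ → Set M.W → (ℕ → M.D) → Prop
  | .atom p ts, s, g => ∀ w ∈ s, M.P w p fun i => (ts i).val M w g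
  | .eq t t', s, g => ∀ w ∈ s, M.sim w (t.val M w g) (t'.val M w g)
  | .bot, s, _ => s = ∅
  | .and φ ψ, s, g => Supp M φ s g ∧ Supp M ψ s g
  | .idis φ ψ, s, g => Supp M φ s g ∨ Supp M ψ s g
  | .imp φ ψ, s, g => ∀ t ⊆ s, Supp M φ t g → Supp M ψ t g
  | .all x φ, s, g => ∀ d, Supp M φ s (update g x d)
  | .iex x φ, s, g => ∃ d, Supp M φ s (update g x d)

/-- three binary predicate symbols, no function symbols -/
def sg : Sig := ⟨Fin 3, fun _ => 2, Empty, fun _ => 0, fun _ => True⟩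

def A (p : Fin 3) (x y : ℕ) : Form sg := .atom p ![.var x, .var y]
def Q (x y : ℕ) : Form sg := .eq (.var x) (.var y)
def ng (φ : Form sg) : Form sg := .imp φ .bot

def hyp : Form sg :=
  .and (.all 0 (.all 1 (.idis (Q 0 1) (ng (Q 0 1)))))
  (.and (.all 0 (ng (A 1 0 0)))
  (.and (.all 0 (.all 1 (.all 2 (.imp (.and (A 1 0 1) (A 1 1 2)) (A 1 0 2)))))
  (.and (.all 0 (.iex 1 (.and (A 1 0 1) (A 2 1 1))))
  (.imp (.all 0 (.iex 1 (.and (A 2 1 1) (A 0 1 0))))
    (.iex 0 (.iex 1 (.iex 2 (.and (A 0 0 1) (.and (A 0 0 2) (ng (Q 1 2)))))))))))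

def con : Form sg :=
  .iex 0 (.iex 1 (ng (.and (ng (A 0 0 1))
    (.all 2 (.all 3 (.imp (ng (A 0 2 3)) (.and (Q 2 0) (Q 3 1))))))))

theorem supp_A (M : Model sg) (p : Fin 3) (x y : ℕ) (s : Set M.W) (g : ℕ → M.D) :
    Supp M (A p x y) s g ↔ ∀ w ∈ s, M.P w p ![g x, g y] := by
  refine forall₂_congr fun w _ => iff_of_eq (congrArg _ (funext fun i => ?_))
  fin_cases i <;> rfl

theorem supp_Q (M : Model sg) (x y : ℕ) (s : Set M.W) (g : ℕ → M.D) :
    Supp M (Q x y) s g ↔ ∀ w ∈ s, M.sim w (g x) (g y) := Iff.rfl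

theorem neg_iff {W : Type} (s : Set W) (p : W → Prop) :
    (∀ t ⊆ s, (∀ w ∈ t, p w) → t = ∅) ↔ ∀ w ∈ s, ¬ p w := by
  refine ⟨fun h w hw hp => ?_, fun h t ht hp => Set.eq_empty_of_forall_notMem fun w hw =>
    h w (ht hw) (hp w hw)⟩
  simpa using h {w} (by simpa) (by simpa)

theorem imp_iff {W : Type} (s : Set W) (p q : W → Prop) :
    (∀ t ⊆ s, (∀ w ∈ t, p w) → ∀ w ∈ t, q w) ↔ ∀ w ∈ s, p w → q w :=
  ⟨fun h w hw hp => h {w} (by simpa) (by simpa) w rfl, fun h _ ht hp w hw =>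
    h w (ht hw) (hp w hw)⟩

theorem and_iff {W : Type} (s : Set W) (p q : W → Prop) :
    ((∀ w ∈ s, p w) ∧ ∀ w ∈ s, q w) ↔ ∀ w ∈ s, p w ∧ q w :=
  ⟨fun h w hw => ⟨h.1 w hw, h.2 w hw⟩, fun h => ⟨fun w hw => (h w hw).1, fun w hw => (h w hw).2⟩⟩

theorem all_iff {W D : Type} (s : Set W) (p : D → W → Prop) :
    (∀ d, ∀ w ∈ s, p d w) ↔ ∀ w ∈ s, ∀ d, p d w :=
  ⟨fun h w hw d => h d w hw, fun h d w hw => h w hw d⟩

theorem supp_hyp (M : Model sg) (s : Set M.W) (g : ℕ → M.D) : Supp M hyp s g ↔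
    (∀ a b, (∀ w ∈ s, M.sim w a b) ∨ ∀ w ∈ s, ¬ M.sim w a b) ∧
    (∀ a, ∀ w ∈ s, ¬ M.P w (1 : Fin 3) ![a, a]) ∧
    (∀ a b c, ∀ w ∈ s, M.P w (1 : Fin 3) ![a, b] ∧ M.P w (1 : Fin 3) ![b, c] →
      M.P w (1 : Fin 3) ![a, c]) ∧
    (∀ a, ∃ b, ∀ w ∈ s, M.P w (1 : Fin 3) ![a, b] ∧ M.P w (2 : Fin 3) ![b, b]) ∧
    ∀ t ⊆ s, (∀ a, ∃ b, ∀ w ∈ t, M.P w (2 : Fin 3) ![b, b] ∧ M.P w (0 : Fin 3) ![b, a]) →
      ∃ a b c, ∀ w ∈ t, M.P w (0 : Fin 3) ![a, b] ∧ M.P w (0 : Fin 3) ![a, c] ∧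
        ¬ M.sim w b c := by
  simp only [hyp, ng, Supp, supp_A, supp_Q, update_apply, neg_iff, and_iff, imp_iff]
  simp

theorem supp_con (M : Model sg) (s : Set M.W) (g : ℕ → M.D) : Supp M con s g ↔
    ∃ a b, ∀ w ∈ s, ¬ (¬ M.P w (0 : Fin 3) ![a, b] ∧
      ∀ c d, ¬ M.P w (0 : Fin 3) ![c, d] → M.sim w c a ∧ M.sim w d b) := by
  simp only [con, ng, Supp, supp_A, supp_Q, update_apply, neg_iff, and_iff, imp_iff]
  simp only [all_iff, and_iff, neg_iff]
  simp

/-- the uncountable countermodel -/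
def big : Model sg where
  W := ℝ × ℝ
  D := ℝ
  neW := inferInstance
  neD := inferInstance
  P := fun w (p : Fin 3) a => if p = 0 then (a (0 : Fin 2), a (1 : Fin 2)) ≠ w
    else if p = 1 then a (0 : Fin 2) < a (1 : Fin 2) else ∃ n : ℕ, a (0 : Fin 2) = n
  F := fun _ f => f.elim
  rig := fun f => f.elim
  sim := fun _ a b => a = b
  equiv := fun _ => eq_equivalence
  congP := fun _ _ a b h => by rw [funext h]
  congF := fun _ f => f.elim

theorem result : ∃ (σ : Sig) (φ : Form σ), Finite σ.P ∧ IsEmpty σ.F ∧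
    (∀ M : Model σ, Countable M.D → ∀ s g, Supp M φ s g) ∧
    ∃ (M : Model σ) (s : Set M.W) (g : ℕ → M.D), ¬ Supp M φ s g := by
  refine ⟨sg, .imp hyp con, inferInstanceAs (Finite (Fin 3)), inferInstanceAs (IsEmpty Empty),
    fun M hD s g t _ ht => ?_, big, Set.univ, fun _ => (0 : ℝ), fun h => ?_⟩
  · obtain ⟨h1, h2, h3, h4, h5⟩ := (supp_hyp M t g).1 ht
    rw [supp_con]
    by_contra hc
    push Not at hc
    choose w hw hw1 hw2 using hc
    choose f hf using h4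
    have := M.neD
    obtain ⟨d, hd⟩ := exists_surjective_nat M.D
    let y : ℕ → M.D := fun k => f^[k + 1] (d 0)
    have hy : ∀ k, ∀ v ∈ t, M.P v (2 : Fin 3) ![y k, y k] := fun k v hv => by
      simp only [y, iterate_succ_apply']; exact (hf _ v hv).2
    have hl : ∀ j k, j < k → ∀ v ∈ t, M.P v (1 : Fin 3) ![y j, y k] := by
      intro j k hjk v hv
      induction k, hjk using Nat.le_induction with
      | base => simp only [y, iterate_succ_apply' f (j + 1)]; exact (hf _ v hv).1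
      | succ k _ ih =>
        refine h3 _ _ _ v hv ⟨ih, ?_⟩
        simp only [y, iterate_succ_apply' f (k + 1)]; exact (hf _ v hv).1
    have hs : ∀ {a b v v'}, v ∈ t → v' ∈ t → M.sim v a b → M.sim v' a b := by
      intro a b v v' hv hv' h
      exact (h1 a b).elim (fun h' => h' v' hv') fun h' => absurd h (h' v hv)
    have hne : ∀ j k, ∀ v ∈ t, M.sim v (y j) (y k) → j = k := by
      have : ∀ j k, j < k → ∀ v ∈ t, ¬ M.sim v (y j) (y k) := fun j k hjk v hv h =>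
        h2 (y k) v hv ((M.congP v (1 : Fin 3) _ _ fun i => by
          fin_cases i
          · exact h
          · exact (M.equiv v).refl _).1 (hl j k hjk v hv))
      intro j k v hv h
      rcases lt_trichotomy j k with h' | h' | h'
      · exact absurd h (this j k h' v hv)
      · exact h'
      · exact absurd ((M.equiv v).symm h) (this k j h' v hv)
    let u : Set M.W := {v | v ∈ t ∧ ∀ k, M.P v (0 : Fin 3) ![y k, d k]}
    have hu : ∀ a b, w a b ∉ u → ∃ k, M.sim (w a b) (y k) a ∧ M.sim (w a b) (d k) b := by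
      intro a b h
      by_contra h'
      refine h ⟨hw a b, fun k => ?_⟩
      by_contra h6
      exact h' ⟨k, hw2 a b _ _ h6⟩
    obtain ⟨a, b, c, h6⟩ := h5 u (fun v hv => hv.1) fun a => by
      obtain ⟨k, rfl⟩ := hd a
      exact ⟨y k, fun v hv => ⟨hy k v hv.1, hv.2 k⟩⟩
    obtain ⟨k, h7, h8⟩ := hu a b fun h => hw1 a b (h6 _ h).1
    obtain ⟨j, h9, h10⟩ := hu a c fun h => hw1 a c (h6 _ h).2.1
    obtain rfl : k = j := hne k j _ (hw a b)
      ((M.equiv _).trans h7 ((M.equiv _).symm (hs (hw a c) (hw a b) h9)))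
    have h11 : ∀ i, ∃ v ∈ t, M.sim v (d 0) (y i) := by
      intro i
      by_cases h : w (y 0) (y i) ∈ u
      · exact absurd ((M.equiv _).trans ((M.equiv _).symm (hs (hw a b) (hw _ _) h8))
          (hs (hw a c) (hw _ _) h10)) (h6 _ h).2.2
      · obtain ⟨m, h12, h13⟩ := hu _ _ h
        rw [hne m 0 _ (hw _ _) h12] at h13
        exact ⟨_, hw _ _, h13⟩
    obtain ⟨v, hv, h12⟩ := h11 0
    obtain ⟨v', hv', h13⟩ := h11 1
    exact absurd (hne 0 1 v hv ((M.equiv _).trans ((M.equiv _).symm h12) (hs hv' hv h13)))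
      (by decide)
  · have := h Set.univ subset_rfl ((supp_hyp big _ _).2 ⟨fun a b => ?_, ?_, ?_, fun a => ?_,
      fun t _ ht => ?_⟩)
    · obtain ⟨a, b, h⟩ := (supp_con big _ _).1 this
      refine h (a, b) trivial ⟨by simp [big], fun c d => ?_⟩
      simp [big]
    · exact (em (a = b)).imp (fun h _ _ => h) fun h _ _ => h
    · simp [big]
    · simp only [big]
      simp
      exact fun a b c _ _ _ => lt_trans
    · obtain ⟨n, hn⟩ := exists_nat_gt (R := ℝ) a
      exact ⟨(n : ℝ), by simp [big, hn]⟩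
    · rcases t.eq_empty_or_nonempty with rfl | ⟨v, hv⟩
      · exact ⟨(0 : ℝ), (0 : ℝ), (0 : ℝ), fun _ h => h.elim⟩
      choose f hf using ht
      have h1 : ∀ a, ∃ n : ℕ, f a = (n : ℝ) := fun a => by simpa [big] using (hf a v hv).1
      choose n hn using h1
      obtain ⟨b, c, hbc, h2⟩ := not_injective_iff.1
        (fun h : Injective (n : ℝ → ℕ) => not_countable (α := ℝ) h.countable)
      refine ⟨f b, b, c, fun w hw => ⟨(hf b w hw).2, ?_, h2⟩⟩
      rw [hn, hbc, ← hn]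
      exact (hf c w hw).2

end Pool.Agent.Results.MP_130315_lc.NoCountable
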